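import Pool.Agent.H.MP_a0e17f_co.B

namespace Pool.Agent.Results.MP_a0e17f_co.Lower

open Finset Module Submodule Pool.Agent.H.MP_a0e17f_co

abbrev E (d : ℕ) := EuclideanSpace ℝ (Fin d)

/-- `S` splits into two disjoint parts whose convex hulls meet in dimension at least `k`. -/
def Divisible {d : ℕ} (k : ℕ) (S : Finset (E d)) : Prop :=
  ∃ S₁ S₂ : Set (E d), Disjoint S₁ S₂ ∧ S₁ ∪ S₂ = S ∧
    (convexHull ℝ S₁ ∩ convexHull ℝ S₂).Nonempty ∧
    k ≤ finrank ℝ (affineSpan ℝ (convexHull ℝ S₁ ∩ convexHull ℝ S₂)).direction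

/-- Every subset with at most `k + 1` points is affinely independent. -/
def Indep {d : ℕ} (k : ℕ) (S : Finset (E d)) : Prop :=
  ∀ T ⊆ S, T.card ≤ k + 1 → AffineIndependent ℝ (Subtype.val : T → E d)

/-- The least `n` such that every `k`-independent set with at least `n` points is divisible. -/
noncomputable def N (k d : ℕ) : ℕ :=
  sInf {n | ∀ S : Finset (E d), Indep k S → n ≤ S.card → Divisible k S}

theorem div {d k : ℕ} (hk : 2 ≤ k) (S : Finset (E d)) (hS : Indep k S)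
    (hn : 2 * d + k ≤ S.card) : Divisible k S := by
  let v : S → ℝ × E d := fun i => (1, i)
  have hr : finrank ℝ (ℝ × E d) = 1 + d := by simp
  obtain ⟨f, hf, hW⟩ := main (v := v) hk (LinearMap.fst ℝ ℝ (E d)) (fun _ => rfl) (fun A hA => by
    have := (hS (A.map (.subtype _)) (fun x hx => by
      obtain ⟨a, -, rfl⟩ := mem_map.1 hx
      exact a.2) (by simpa using hA)).comp_embedding
      ⟨fun a : A => ⟨a.1.1, mem_map_of_mem _ a.2⟩, fun a b e =>
        Subtype.ext (Subtype.ext (Subtype.mk.inj e))⟩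
    refine linearIndepOn_finset_iff.2 fun c hc i hi => affineIndependent_iff.1 this univ
      (fun a => c a) ?_ ?_ ⟨i, hi⟩ (mem_univ _)
    · exact (sum_coe_sort A c).trans (by simpa [v, Prod.fst_sum] using congrArg Prod.fst hc)
    · exact (sum_coe_sort A fun a => c a • (a : E d)).trans
        (by simpa [v, Prod.snd_sum] using congrArg Prod.snd hc)) (by omega) (by simp; omega)
  set X := ∑ i, max (f i) 0 • v i with hX
  have m0 : 0 < X.1 := by
    obtain ⟨a, ha⟩ : (P f).Nonempty := nonempty_iff_ne_empty.2 fun e => by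
      have := finrank_mono (show W v f ≤ ⊥ by rw [W, e]; simp [sp])
      rw [finrank_bot] at this
      omega
    rw [hX, Prod.fst_sum]
    exact sum_pos' (fun i _ => by simp [v]) ⟨a, mem_univ _, by simpa [v] using ha⟩
  have cv : ∀ (g α : S → ℝ) (T : Set (E d)) (ε : ℝ) (u : E d), (∀ i ∈ P g, i.1 ∈ T) →
      (∀ i ∉ P g, α i = 0) → P g ⊆ P (g + ε • α) → ∑ i, max (g i) 0 • v i = X →
      ∑ i, α i • v i = (0, u) → X.1⁻¹ • (X.2 + ε • u) ∈ convexHull ℝ T := by
    intro g α T ε u h1 h2 h3 h4 h5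
    have e : ∑ i ∈ P g, (max (g i) 0 + ε * α i) • v i = X + ε • (0, u) := by
      rw [sum_ext fun i hi => by rw [h2 i hi, max_eq_right (by simpa using hi)]; simp]
      simp only [add_smul, mul_smul, sum_add_distrib, ← smul_sum, h4, h5]
    have e1 := congrArg Prod.fst e
    have e2 := congrArg Prod.snd e
    simp only [v, Prod.fst_sum, Prod.snd_sum, Prod.smul_mk, smul_eq_mul, mul_one, Prod.fst_add,
      Prod.snd_add, mul_zero, add_zero] at e1 e2
    rw [← e2, smul_sum]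
    simp only [smul_smul]
    refine (convex_convexHull ℝ T).sum_mem (fun i hi => mul_nonneg (inv_pos.2 m0).le ?_)
      (by rw [← mul_sum, e1, inv_mul_cancel₀ m0.ne']) fun i hi => subset_convexHull ℝ T (h1 i hi)
    rw [max_eq_left (mem_P.1 hi).le]
    exact (mem_P.1 (h3 hi)).le
  let S₁ : Set (E d) := Subtype.val '' (P f : Set S)
  have key : ∀ (α β : S → ℝ) (ε : ℝ) (u : E d), (∀ i ∉ P f, α i = 0) → (∀ i ∉ P (-f), β i = 0) →
      P f ⊆ P (f + ε • α) → P (-f) ⊆ P (-f + ε • β) → ∑ i, α i • v i = (0, u) →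
      ∑ i, β i • v i = (0, u) →
      X.1⁻¹ • (X.2 + ε • u) ∈ convexHull ℝ S₁ ∩ convexHull ℝ (S \ S₁) :=
    fun α β ε u a b c d e g => ⟨cv f α _ ε u (fun i hi => ⟨i, hi, rfl⟩) a c rfl e,
      cv (-f) β _ ε u (fun i hi => ⟨i.2, fun ⟨j, hj, e⟩ => by
        rw [Subtype.ext e] at hj
        have := mem_P.1 hi
        have := mem_P.1 hj
        simp only [Pi.neg_apply] at *
        linarith⟩) b d (by rw [hX, H.MP_a0e17f_co.sum_pos f, hf, zero_add]; rfl) g⟩
  have k0 := key 0 0 0 0 (by simp) (by simp) (by simp) (by simp) (by simp; rfl) (by simp; rfl)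
  refine ⟨S₁, S \ S₁, Set.disjoint_sdiff_right, Set.union_sdiff_cancel (by
    rintro _ ⟨i, -, rfl⟩; exact i.2), ⟨_, k0⟩, ?_⟩
  have h1 : W v f ⊓ LinearMap.ker (LinearMap.fst ℝ ℝ (E d)) ≤ (affineSpan ℝ (convexHull ℝ S₁ ∩
      convexHull ℝ (S \ S₁))).direction.map (LinearMap.inr ℝ ℝ (E d)) := by
    rintro ⟨t, u⟩ ⟨⟨a, b⟩, c⟩
    obtain rfl : t = 0 := c
    obtain ⟨α, hα, eα⟩ := mem_sp.1 a
    obtain ⟨β, hβ, eβ⟩ := mem_sp.1 b
    obtain ⟨ε, ⟨ε0, h1, -⟩, -, h2, -⟩ := ((ev f α).and (ev (-f) β)).exists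
    have := AffineSubspace.vsub_mem_direction (subset_affineSpan ℝ _ (key α β ε u hα hβ h1 h2 eα eβ))
      (subset_affineSpan ℝ _ k0)
    rw [vsub_eq_sub, ← smul_sub, zero_smul, add_zero, add_sub_cancel_left,
      smul_mem_iff _ (inv_pos.2 m0).ne', smul_mem_iff _ ε0.ne'] at this
    exact ⟨u, this, rfl⟩
  have h2 := (finrank_mono h1).trans (finrank_map_le _ _)
  have h3 := finrank_sup_add_finrank_inf_eq (W v f) (LinearMap.ker (LinearMap.fst ℝ ℝ (E d)))
  have h4 := (W v f ⊔ LinearMap.ker (LinearMap.fst ℝ ℝ (E d))).finrank_le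
  have h5 := (LinearMap.fst ℝ ℝ (E d)).finrank_range_add_finrank_ker
  have h6 := (LinearMap.range (LinearMap.fst ℝ ℝ (E d))).finrank_le
  rw [finrank_self] at h6
  omega

theorem result (k d : ℕ) (hk : 2 ≤ k) (hd : k + 1 ≤ d) :
    (∀ S : Finset (E d), Indep k S → 2 * d + k ≤ S.card → Divisible k S) ∧
      N k d ≤ 2 * d + k ∧ N k d < (d - k + 2) * (k + 1) := by
  have : N k d ≤ 2 * d + k := Nat.sInf_le (div hk)
  refine ⟨div hk, this, this.trans_lt ?_⟩
  obtain ⟨u, rfl⟩ := Nat.exists_eq_add_of_le hd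
  rw [show k + 1 + u - k + 2 = u + 3 by omega]
  nlinarith

end Pool.Agent.Results.MP_a0e17f_co.Lower
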